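import Mathlib

namespace Pool.Agent.H.MP_b372c7_an

open Finset Filter Topology RealInnerProductSpace

theorem small (d : ℕ → ℝ) (M c ε : ℝ) (hε : 0 < ε)
    (h : ∀ n, ∑ i ∈ range n, d i ^ 2 ≤ M) :
    ∃ k, d (k + 1) * (∑ i ∈ range (k + 2), d i + c) < ε := by
  by_contra! hh
  have M0 : 0 ≤ M := by simpa using h 0
  have s := (summable_nat_add_iff 1).2 (summable_of_sum_range_le (fun _ => sq_nonneg _) h)
  refine Real.not_summable_natCast_inv ((summable_nat_add_iff 2).1 (.of_nonneg_of_le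
    (fun _ => by positivity) (fun k => ?_) (s.mul_left ((2 * c ^ 2 + 2 * M) / ε ^ 2))))
  have h1 := (sq_sum_le_card_mul_sum_sq (s := range (k + 2)) (f := d)).trans
    (mul_le_mul_of_nonneg_left (h _) (Nat.cast_nonneg _))
  rw [card_range] at h1
  have h2 := pow_le_pow_left₀ hε.le (hh k) 2
  have h3 : (1 : ℝ) ≤ (k + 2 : ℕ) := by exact_mod_cast Nat.le_add_left 1 (k + 1)
  have h4 : (∑ i ∈ range (k + 2), d i + c) ^ 2 ≤ (2 * c ^ 2 + 2 * M) * (k + 2 : ℕ) := by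
    nlinarith [sq_nonneg (∑ i ∈ range (k + 2), d i - c), sq_nonneg c]
  rw [div_mul_eq_mul_div, le_div_iff₀ (by positivity), inv_mul_le_iff₀ (by positivity)]
  rw [mul_pow] at h2
  nlinarith [mul_le_mul_of_nonneg_left h4 (sq_nonneg (d (k + 1)))]

variable {E H : Type} [NormedAddCommGroup E] [NormedSpace ℝ E] [NormedAddCommGroup H]
  [InnerProductSpace ℝ H] {U : E →L[ℝ] H} {l : E →L[ℝ] ℝ}

structure Good (U : E →L[ℝ] H) (l : E →L[ℝ] ℝ) : Prop where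
  eq : ∀ x, ‖x‖ ^ 4 = ‖U x‖ ^ 4 + l x ^ 4
  le : ∀ x, |l x| ≤ ‖U x‖

noncomputable def D (U : E →L[ℝ] H) (l : E →L[ℝ] ℝ) (x y : E) : ℝ :=
  4 * ‖U x‖ ^ 2 * ⟪U x, U y⟫ + 4 * l x ^ 3 * l y

theorem D_add (x y z : E) : D U l x (y + z) = D U l x y + D U l x z := by
  simp only [D, map_add, inner_add_right]; ring

theorem Good.ex (h : Good U l) (x y : E) : ‖x + y‖ ^ 4 =
    (‖U x‖ ^ 2 + 2 * ⟪U x, U y⟫ + ‖U y‖ ^ 2) ^ 2 + (l x + l y) ^ 4 := by
  rw [h.eq, map_add, map_add, ← norm_add_sq_real]; ring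

theorem Good.conv (h : Good U l) (x y : E) :
    ‖x‖ ^ 4 + D U l x y + 2 * ‖U x‖ ^ 2 * ‖U y‖ ^ 2 ≤ ‖x + y‖ ^ 4 := by
  rw [h.ex, h.eq, D]
  nlinarith [sq_nonneg (2 * ⟪U x, U y⟫ + ‖U y‖ ^ 2), sq_nonneg (l y * (2 * l x + l y)),
    sq_nonneg (l x * l y)]

theorem Good.U_le (h : Good U l) (x : E) : ‖U x‖ ≤ ‖x‖ :=
  le_of_pow_le_pow_left₀ four_ne_zero (norm_nonneg _) (by rw [h.eq]; simp; positivity)

theorem Good.le_U (h : Good U l) (x : E) : ‖x‖ ^ 4 ≤ 2 * ‖U x‖ ^ 4 := by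
  have := pow_le_pow_left₀ (abs_nonneg _) (h.le x) 4
  rw [(by decide : Even 4).pow_abs] at this
  rw [h.eq]; linarith

theorem Good.clark (h : Good U l) (x y : E) :
    2 * ‖x‖ ^ 4 + ‖y‖ ^ 4 ≤ ‖x + y‖ ^ 4 + ‖x - y‖ ^ 4 := by
  have := h.le_U y
  rw [sub_eq_add_neg, h.ex, h.ex, h.eq x, map_neg, map_neg, inner_neg_right, norm_neg]
  nlinarith [sq_nonneg ⟪U x, U y⟫, sq_nonneg (‖U x‖ * ‖U y‖), sq_nonneg (l x * l y),
    sq_nonneg (l y ^ 2)]

theorem Good.orth (h : Good U l) (x y : E) (hm : ∀ t : ℝ, ‖x‖ ≤ ‖x + t • y‖) : D U l x y = 0 := by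
  have m : IsLocalMin (fun t : ℝ => (‖U x‖ ^ 2 + 2 * (t * ⟪U x, U y⟫) + t ^ 2 * ‖U y‖ ^ 2) ^ 2 +
      (l x + t * l y) ^ 4) 0 := .of_forall fun t => by
    have := pow_le_pow_left₀ (norm_nonneg _) (hm t) 4
    rw [h.ex, h.eq, map_smul, map_smul, inner_smul_right, norm_smul, mul_pow, Real.norm_eq_abs,
      sq_abs, smul_eq_mul] at this
    simp only [zero_mul, mul_zero, add_zero, ne_eq, OfNat.ofNat_ne_zero, not_false_eq_true,
      zero_pow]
    linarith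
  have i := hasDerivAt_id' (0 : ℝ)
  have := m.hasDerivAt_eq_zero ((((((i.mul_const _).const_mul 2).const_add _).fun_add
    ((i.fun_pow 2).mul_const _)).fun_pow 2).fun_add (((i.mul_const _).const_add _).fun_pow 4))
  simp at this
  rw [D]; linarith

theorem Good.lip (h : Good U l) (x z v : E) (R : ℝ) (hx : ‖U x‖ ≤ R) (hz : ‖U z‖ ≤ R) :
    D U l x v - D U l z v ≤ 24 * R ^ 2 * (‖U (x - z)‖ * ‖U v‖) := by
  have x0 := norm_nonneg (U x)
  have z0 := norm_nonneg (U z)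
  have p0 : 0 ≤ ‖U (x - z)‖ * ‖U v‖ := by positivity
  have a1 : ⟪U x, U v⟫ - ⟪U z, U v⟫ ≤ ‖U (x - z)‖ * ‖U v‖ := by
    rw [← inner_sub_left, ← map_sub]; exact real_inner_le_norm _ _
  have a2 : |(‖U x‖ - ‖U z‖) * ⟪U z, U v⟫| ≤ ‖U (x - z)‖ * (R * ‖U v‖) := by
    rw [abs_mul, map_sub]
    exact mul_le_mul (abs_norm_sub_norm_le _ _) ((abs_real_inner_le_norm _ _).trans
      (mul_le_mul_of_nonneg_right hz (norm_nonneg _))) (abs_nonneg _) (norm_nonneg _)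
  have a3 : |(l x - l z) * l v| ≤ ‖U (x - z)‖ * ‖U v‖ := by
    rw [abs_mul, ← map_sub]; exact mul_le_mul (h.le _) (h.le _) (abs_nonneg _) (norm_nonneg _)
  have b1 := abs_le.1 ((h.le x).trans hx)
  have b2 := abs_le.1 ((h.le z).trans hz)
  have c1 : ‖U x‖ ^ 2 * (⟪U x, U v⟫ - ⟪U z, U v⟫) ≤ R ^ 2 * (‖U (x - z)‖ * ‖U v‖) :=
    (mul_le_mul_of_nonneg_left a1 (sq_nonneg _)).trans
      (mul_le_mul_of_nonneg_right (pow_le_pow_left₀ x0 hx 2) p0)
  have c2 := (mul_le_mul_of_nonneg_left (le_abs_self _) (add_nonneg x0 z0)).trans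
    (mul_le_mul (add_le_add hx hz) a2 (abs_nonneg _) (by linarith))
  have c3 := (mul_le_mul_of_nonneg_left (le_abs_self _)
    (show 0 ≤ l x ^ 2 + l x * l z + l z ^ 2 by nlinarith [sq_nonneg (l x + l z)])).trans
    (mul_le_mul (show _ ≤ 3 * R ^ 2 by nlinarith) a3 (abs_nonneg _) (by positivity))
  simp only [D]
  nlinarith

theorem Good.alt [CompleteSpace E] (h : Good U l) (G₁ G₂ : Submodule ℝ E) (r : ℕ → E)
    (h1 : ∀ k : ℕ, r (2 * k) - r (2 * k + 1) ∈ G₁ ∧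
      ‖r (2 * k + 1)‖ = Metric.infDist (r (2 * k)) (G₁ : Set E))
    (h2 : ∀ k : ℕ, r (2 * k + 1) - r (2 * k + 2) ∈ G₂ ∧
      ‖r (2 * k + 2)‖ = Metric.infDist (r (2 * k + 1)) (G₂ : Set E)) :
    ∃ y : E, Tendsto r atTop (𝓝 y) ∧ r 0 - y ∈ (G₁ ⊔ G₂).topologicalClosure ∧
      ‖y‖ = Metric.infDist (r 0) ((G₁ ⊔ G₂).topologicalClosure : Set E) := by
  let G : ℕ → Submodule ℝ E := fun k => if k % 2 = 0 then G₁ else G₂
  have st : ∀ k, r k - r (k + 1) ∈ G k ∧ ‖r (k + 1)‖ = Metric.infDist (r k) (G k : Set E) := by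
    intro k
    obtain ⟨j, rfl | rfl⟩ := Nat.even_or_odd' k
    · simp only [G, if_pos (show 2 * j % 2 = 0 by omega)]; exact h1 j
    · simp only [G, if_neg (show ¬ (2 * j + 1) % 2 = 0 by omega)]; exact h2 j
  have o : ∀ k, ∀ g ∈ G k, D U l (r (k + 1)) g = 0 := fun k g hg => h.orth _ _ fun t => by
    rw [(st k).2]
    refine (Metric.infDist_le_dist_of_mem ((G k).sub_mem (st k).1 ((G k).smul_mem t hg))).trans_eq ?_
    rw [dist_eq_norm]; congr 1; abel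
  let d : ℕ → ℝ := fun k => ‖U (r k - r (k + 1))‖
  have dec : ∀ k, ‖r (k + 1)‖ ^ 4 + 2 * ‖U (r (k + 1))‖ ^ 2 * d k ^ 2 ≤ ‖r k‖ ^ 4 := fun k => by
    simpa only [o k _ (st k).1, add_zero, add_sub_cancel] using h.conv (r (k + 1)) (r k - r (k + 1))
  have an : Antitone fun k => ‖r k‖ ^ 4 := antitone_nat_of_succ_le fun k =>
    le_trans (le_add_of_nonneg_right (by positivity)) (dec k)
  have bd : BddBelow (Set.range fun k => ‖r k‖ ^ 4) := ⟨0, by rintro _ ⟨k, rfl⟩; positivity⟩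
  have lim := tendsto_atTop_ciInf an bd
  have ge : ∀ k, ⨅ k, ‖r k‖ ^ 4 ≤ ‖r k‖ ^ 4 := ciInf_le bd
  generalize ⨅ k, ‖r k‖ ^ 4 = A at lim ge
  have R : ∀ k, ‖U (r k)‖ ≤ ‖r 0‖ := fun k => (h.U_le _).trans
    (le_of_pow_le_pow_left₀ four_ne_zero (norm_nonneg _) (an (Nat.zero_le k)))
  have sp : ∀ k, ∃ p ∈ G₁, ∃ q ∈ G₂, r 0 - r k = p + q ∧ ‖U p‖ ≤ ∑ i ∈ range k, d i ∧
      ‖U q‖ ≤ ∑ i ∈ range k, d i := fun k => by
    induction k with
    | zero => exact ⟨0, G₁.zero_mem, 0, G₂.zero_mem, by simp⟩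
    | succ k ih =>
      obtain ⟨p, hp, q, hq, e, a, b⟩ := ih
      have s := (st k).1
      have e' : r 0 - r (k + 1) = p + q + (r k - r (k + 1)) := by rw [← e]; abel
      rw [sum_range_succ]
      by_cases hk : k % 2 = 0
      · exact ⟨p + (r k - r (k + 1)), G₁.add_mem hp (by simpa only [G, if_pos hk] using s), q, hq,
          by rw [e']; abel, by rw [map_add]; exact (norm_add_le _ _).trans (add_le_add_left a _),
          b.trans (le_add_of_nonneg_right (norm_nonneg _))⟩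
      · exact ⟨p, hp, q + (r k - r (k + 1)), G₂.add_mem hq (by simpa only [G, if_neg hk] using s),
          by rw [e']; abel, a.trans (le_add_of_nonneg_right (norm_nonneg _)),
          by rw [map_add]; exact (norm_add_le _ _).trans (add_le_add_left b _)⟩
  have low : ∀ g ∈ G₁ ⊔ G₂, A ≤ ‖r 0 - g‖ ^ 4 := fun g hg => by
    obtain ⟨g₁, m1, g₂, m2, rfl⟩ := Submodule.mem_sup.1 hg
    rcases le_or_gt A 0 with A0 | A0
    · exact A0.trans (by positivity)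
    have m0 : 0 < √(A / 2) := by positivity
    have mm : ∀ k, √(A / 2) ≤ ‖U (r k)‖ ^ 2 := fun k =>
      Real.sqrt_le_iff.2 ⟨by positivity, by linarith [ge k, h.le_U (r k)]⟩
    have sm : ∀ n, ‖r n‖ ^ 4 + √(A / 2) * ∑ i ∈ range n, d i ^ 2 ≤ ‖r 0‖ ^ 4 := fun n => by
      induction n with
      | zero => simp
      | succ n ih =>
        rw [sum_range_succ]
        nlinarith [dec n, mul_le_mul_of_nonneg_right (mm (n + 1)) (sq_nonneg (d n)),
          mul_nonneg m0.le (sq_nonneg (d n))]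
    refine le_of_forall_pos_le_add fun ε hε => ?_
    obtain ⟨k, hk⟩ := small d (‖r 0‖ ^ 4 / √(A / 2)) (‖U g₁‖ + ‖U g₂‖)
      (ε / (24 * ‖r 0‖ ^ 2 + 1)) (by positivity) fun n => by
        rw [le_div_iff₀ m0]; linarith [sm n, pow_nonneg (norm_nonneg (r n)) 4]
    obtain ⟨p, hp, q, hq, e, a, b⟩ := sp (k + 2)
    obtain ⟨u, hu, v, hv, e', c⟩ : ∃ u ∈ G (k + 1), ∃ v ∈ G k, p - g₁ + (q - g₂) = u + v ∧
        ‖U v‖ ≤ ∑ i ∈ range (k + 2), d i + (‖U g₁‖ + ‖U g₂‖) := by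
      by_cases hk : k % 2 = 0
      · simp only [G, if_pos hk, if_neg (show ¬ (k + 1) % 2 = 0 by omega)]
        exact ⟨_, G₂.sub_mem hq m2, _, G₁.sub_mem hp m1, add_comm _ _, by
          rw [map_sub]; linarith [norm_sub_le (U p) (U g₁), norm_nonneg (U g₂)]⟩
      · simp only [G, if_neg hk, if_pos (show (k + 1) % 2 = 0 by omega)]
        exact ⟨_, G₁.sub_mem hp m1, _, G₂.sub_mem hq m2, rfl, by
          rw [map_sub]; linarith [norm_sub_le (U q) (U g₂), norm_nonneg (U g₁)]⟩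
    have c1 := h.conv (r (k + 2)) (u + v)
    have c2 := h.lip (r (k + 1)) (r (k + 2)) v _ (R _) (R _)
    rw [show r (k + 2) + (u + v) = r 0 - (g₁ + g₂) by rw [← e', eq_add_of_sub_eq e]; abel, D_add,
      o (k + 1) u hu] at c1
    rw [o k v hv] at c2
    rw [lt_div_iff₀ (by positivity)] at hk
    have c3 := mul_le_mul_of_nonneg_left c (norm_nonneg (U (r (k + 1) - r (k + 2))))
    have c4 : 0 ≤ 2 * ‖U (r (k + 2))‖ ^ 2 * ‖U (u + v)‖ ^ 2 := by positivity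
    have c5 : 0 ≤ ‖U (r (k + 1) - r (k + 2))‖ * ‖U v‖ := by positivity
    nlinarith [ge (k + 2), mul_le_mul_of_nonneg_left c3 (sq_nonneg ‖r 0‖)]
  have mem : ∀ k, r 0 - r k ∈ G₁ ⊔ G₂ := fun k => by
    obtain ⟨p, hp, q, hq, e, -⟩ := sp k
    exact e ▸ Submodule.add_mem_sup hp hq
  obtain ⟨y, hy⟩ := cauchySeq_tendsto_of_complete (u := r) (Metric.cauchySeq_iff'.2 fun ε hε => by
    obtain ⟨N, hN⟩ := (lim.eventually (gt_mem_nhds (show A < A + (ε / 2) ^ 4 / 2 by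
      linarith [pow_pos (half_pos hε) 4]))).exists
    refine ⟨N, fun n hn => ?_⟩
    have c1 := h.clark ((1 / 2 : ℝ) • (r n + r N)) ((1 / 2 : ℝ) • (r n - r N))
    have c2 := low _ ((G₁ ⊔ G₂).smul_mem (1 / 2 : ℝ) ((G₁ ⊔ G₂).add_mem (mem n) (mem N)))
    rw [show (1 / 2 : ℝ) • (r n + r N) + (1 / 2 : ℝ) • (r n - r N) = r n by module,
      show (1 / 2 : ℝ) • (r n + r N) - (1 / 2 : ℝ) • (r n - r N) = r N by module,
      norm_smul _ (r n - r N), Real.norm_of_nonneg (by norm_num)] at c1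
    rw [show r 0 - (1 / 2 : ℝ) • (r 0 - r n + (r 0 - r N)) = (1 / 2 : ℝ) • (r n + r N) by module]
      at c2
    have c3 : (1 / 2 * ‖r n - r N‖) ^ 4 < (ε / 2) ^ 4 := by linarith [an hn]
    rw [dist_eq_norm]
    linarith [lt_of_pow_lt_pow_left₀ 4 (half_pos hε).le c3])
  have my : r 0 - y ∈ (G₁ ⊔ G₂).topologicalClosure :=
    mem_closure_of_tendsto (hy.const_sub _) (.of_forall mem)
  refine ⟨y, hy, my, le_antisymm ((Metric.le_infDist ⟨_, my⟩).2 fun g hg => ?_)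
    ((Metric.infDist_le_dist_of_mem my).trans_eq (by simp))⟩
  refine le_of_pow_le_pow_left₀ four_ne_zero dist_nonneg ?_
  rw [tendsto_nhds_unique (hy.norm.pow 4) lim, dist_eq_norm]
  exact closure_minimal (t := {g | A ≤ ‖r 0 - g‖ ^ 4}) low (isClosed_le (by fun_prop) (by fun_prop)) hg

theorem Good.strict (h : Good U l) (x y : E) (hx : ‖x‖ = 1) (hy : ‖y‖ = 1) (hn : x ≠ y) :
    ‖x + y‖ < 2 := by
  have c := h.clark (x + y) (x - y)
  rw [show x + y + (x - y) = (2 : ℝ) • x by module, show x + y - (x - y) = (2 : ℝ) • y by module,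
    norm_smul, norm_smul, hx, hy, Real.norm_two] at c
  have := pow_pos (norm_pos_iff.2 (sub_ne_zero.2 hn)) 4
  exact lt_of_pow_lt_pow_left₀ 4 zero_le_two (by linarith)

abbrev L2 : Type := lp (fun _ : ℕ => ℝ) 2

instance : Fact (1 ≤ (4 : ENNReal)) := ⟨by norm_num⟩

noncomputable def c0 : L2 →L[ℝ] ℝ := lp.evalCLM ℝ (fun _ : ℕ => ℝ) 2 0

noncomputable def Φ : WithLp 4 (L2 × ℝ) →L[ℝ] ℝ :=
  WithLp.sndL 4 ℝ L2 ℝ - c0 ∘L WithLp.fstL 4 ℝ L2 ℝ

def Y : Type := Φ.ker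

noncomputable instance : NormedAddCommGroup Y := inferInstanceAs (NormedAddCommGroup Φ.ker)
noncomputable instance : NormedSpace ℝ Y := inferInstanceAs (NormedSpace ℝ Φ.ker)
instance : CompleteSpace Y := inferInstanceAs (CompleteSpace Φ.ker)

noncomputable def T : L2 →L[ℝ] Y :=
  ((WithLp.prodContinuousLinearEquiv 4 ℝ L2 ℝ).symm.toContinuousLinearMap ∘L
    (ContinuousLinearMap.id ℝ L2).prod c0).codRestrict Φ.ker fun a => by simp [Φ]

noncomputable def V : Y →L[ℝ] L2 := WithLp.fstL 4 ℝ L2 ℝ ∘L Φ.ker.subtypeL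

theorem V_T (a : L2) : V (T a) = a := rfl

theorem T_V (f : Y) : T (V f) = f :=
  Subtype.ext (WithLp.ofLp_injective 4 (Prod.ext rfl (sub_eq_zero.1 f.2).symm))

theorem good : Good V (c0 ∘L V) := ⟨fun x => by
    have h := WithLp.prod_norm_eq_of_nat (p := 4) 4 (by norm_cast) (T (V x)).1
    rw [← T_V x]
    refine (congrArg (· ^ 4) h).trans ?_
    rw [one_div, Real.rpow_inv_natCast_pow (by positivity) four_ne_zero, Real.norm_eq_abs,
      (by decide : Even 4).pow_abs]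
    rfl,
  fun x => lp.norm_apply_le_norm two_ne_zero (V x) 0⟩

theorem refl : Function.Surjective (NormedSpace.inclusionInDoubleDual ℝ Y) := fun Ψ => by
  let w := (InnerProductSpace.toDual ℝ L2).symm
    (Ψ ∘L (ContinuousLinearMap.compL ℝ Y L2 ℝ).flip V ∘L innerSL ℝ)
  refine ⟨T w, ContinuousLinearMap.ext fun f => ?_⟩
  let v := (InnerProductSpace.toDual ℝ L2).symm (f ∘L T)
  have e : f = innerSL ℝ v ∘L V := ContinuousLinearMap.ext fun x =>
    (congrArg f (T_V x).symm).trans (InnerProductSpace.toDual_symm_apply (x := V x) (y := f ∘L T)).symm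
  have e2 : ⟪w, v⟫ = Ψ (innerSL ℝ v ∘L V) := InnerProductSpace.toDual_symm_apply
  rw [e, ← e2, real_inner_comm]
  rfl

theorem inf : ¬ FiniteDimensional ℝ Y := fun _ =>
  Module.Finite.not_linearIndependent_of_infinite _
    (LinearIndependent.of_comp (v := fun i => T ((default : HilbertBasis ℕ ℝ L2) i)) V.toLinearMap
      (default : HilbertBasis ℕ ℝ L2).orthonormal.linearIndependent)

theorem not_par : ¬ ∀ x y : Y, ‖x + y‖ ^ 2 + ‖x - y‖ ^ 2 = 2 * (‖x‖ ^ 2 + ‖y‖ ^ 2) := fun h => by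
  let a : L2 := lp.single 2 0 1
  let b : L2 := lp.single 2 1 1
  have na : ‖a‖ = 1 := by simp [a]
  have nb : ‖b‖ = 1 := by simp [b]
  have ab : ⟪a, b⟫ = 0 := by simp [a, b, lp.inner_single_left]
  have ca : c0 a = 1 := show a 0 = 1 by simp [a]
  have cb : c0 b = 0 := show b 0 = 0 by simp [b]
  have e1 := good.eq (T a)
  have e2 := good.eq (T b)
  have e3 := good.ex (T a) (T b)
  have e4 := good.ex (T a) (-T b)
  simp only [ContinuousLinearMap.comp_apply, V_T, map_neg, na, nb, ab, ca, cb, norm_neg,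
    inner_neg_right, ← sub_eq_add_neg] at e1 e2 e3 e4
  have h1 := h (T a) (T b)
  have b1 : ‖T a + T b‖ ^ 2 < 23 / 10 := by nlinarith
  have b2 : ‖T a - T b‖ ^ 2 < 23 / 10 := by nlinarith
  have b3 : 14 / 10 < ‖T a‖ ^ 2 := by nlinarith [sq_nonneg ‖T a‖]
  have b4 : 9 / 10 < ‖T b‖ ^ 2 := by nlinarith [sq_nonneg ‖T b‖]
  linarith

end Pool.Agent.H.MP_b372c7_an
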